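import Pool.Agent.H174.GM.Stmts

set_option autoImplicit false

namespace Pool.Agent.H791.GM174

open Finset Pool.Agent.H174.GM

section nat
variable {R S : Type*} [CommRing R] [CommRing S] (φ : R →+* S) {k : ℕ}

lemma map_uu (x : R) : φ (uu x) = uu (φ x) := by simp [uu]

lemma map_mm (u y : R) : φ (mm u y) = mm (φ u) (φ y) := by simp [mm]

lemma map_cc (Y : Fin k → R) : φ (cc Y) = cc (fun i => φ (Y i)) := by
  simp [cc, map_prod, map_mm, map_uu]

lemma map_ff (a : Fin k → ℕ) (Y : Fin k → R) : φ (ff a Y) = ff a (fun i => φ (Y i)) := by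
  simp [ff, map_prod, map_cc]

lemma map_aa (a : Fin k → ℕ) (Y : Fin k → R) : φ (aa a Y) = aa a (fun i => φ (Y i)) := by
  simp only [aa, map_sum, map_zsmul, map_ff]
  rfl

lemma map_flp (ε : Fin k → Bool) (Y : Fin k → R) :
    (fun i => φ (flp ε Y i)) = flp ε (fun i => φ (Y i)) := by
  funext i
  unfold flp
  split_ifs <;> simp

lemma map_br (a : Fin k → ℕ) (Y : Fin k → R) : φ (br a Y) = br a (fun i => φ (Y i)) := by
  simp only [br, map_sum, map_zsmul, map_aa, map_flp]

lemma map_psi (Y : Fin k → R) : φ (psi Y) = psi (fun i => φ (Y i)) := map_br φ _ _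

lemma map_db (Y : Fin k → R) : φ (db Y) = db (fun i => φ (Y i)) := by
  simp [db, map_prod, map_ofNat φ 2]

end nat

/-- products over pairs, last index split off -/
lemma prod_pairs_succ {M : Type*} [CommMonoid M] {k : ℕ} (F : Fin (k + 1) → Fin (k + 1) → M) :
    ∏ p ∈ pairs (k + 1), F p.1 p.2 =
      (∏ p ∈ pairs k, F p.1.castSucc p.2.castSucc) * ∏ i : Fin k, F i.castSucc (Fin.last k) := by
  unfold pairs
  rw [Finset.prod_filter, Finset.prod_filter, Fintype.prod_prod_type, Fintype.prod_prod_type,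
    Fin.prod_univ_castSucc]
  have h1 : ∏ b : Fin (k + 1), (if Fin.last k < b then F (Fin.last k) b else 1) = 1 := by
    refine Finset.prod_eq_one fun b _ => ?_
    rw [if_neg (not_lt.2 (Fin.le_last b))]
  simp only [h1, mul_one]
  rw [← Finset.prod_mul_distrib]
  refine Finset.prod_congr rfl fun a _ => ?_
  rw [Fin.prod_univ_castSucc, if_pos (Fin.castSucc_lt_last a)]
  simp [Fin.castSucc_lt_castSucc_iff]

lemma db_snoc_zero {R : Type*} [CommRing R] {k : ℕ} (X : Fin k → R) :
    db (Fin.snoc (α := fun _ => R) X 0 : Fin (k + 1) → R) = db X * ∏ i, uu (X i) := by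
  unfold db
  rw [Fin.prod_univ_castSucc,
    prod_pairs_succ (fun p q => ((Fin.snoc (α := fun _ => R) X 0 : Fin (k + 1) → R) p -
      (Fin.snoc (α := fun _ => R) X 0 : Fin (k + 1) → R) q) *
      (1 - (Fin.snoc (α := fun _ => R) X 0 : Fin (k + 1) → R) p -
      (Fin.snoc (α := fun _ => R) X 0 : Fin (k + 1) → R) q))]
  simp only [Fin.snoc_castSucc, Fin.snoc_last, uu, mul_zero, sub_zero, mul_one]
  ring

section inj

/-- every complex number is `x (1 - x)` -/
lemma exists_uu (t : ℂ) : ∃ x : ℂ, uu x = t := by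
  obtain ⟨z, hz⟩ := IsAlgClosed.exists_pow_nat_eq (1 - 4 * t) (n := 2) two_pos
  refine ⟨(1 + z) / 2, ?_⟩
  unfold uu
  have : (1 + z) / 2 * (1 - (1 + z) / 2) = (1 - z ^ 2) / 4 := by ring
  rw [this, hz]
  ring

/-- a polynomial in the `u_i` which vanishes after the substitution vanishes at all rational
points which are prescribed where the substitution is constant -/
lemma eval_eq_zero_of_uu {k : ℕ} (g : MvPolynomial (Fin k) ℚ) (Y : Fin k → MvPolynomial (Fin k) ℚ)
    (h : MvPolynomial.aeval (fun i => uu (Y i)) g = 0) (t : Fin k → ℚ)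
    (ht : ∀ x : Fin k → ℂ, (∀ i, uu (x i) = algebraMap ℚ ℂ (t i)) →
      ∀ i, uu (MvPolynomial.aeval x (Y i)) = algebraMap ℚ ℂ (t i)) :
    MvPolynomial.eval t g = 0 := by
  choose x hx using fun i => exists_uu (algebraMap ℚ ℂ (t i))
  have h2 : (MvPolynomial.aeval x) ((MvPolynomial.aeval fun i => uu (Y i)) g)
      = MvPolynomial.aeval (fun i => uu (MvPolynomial.aeval x (Y i))) g := by
    rw [← AlgHom.comp_apply]
    congr 1
    refine MvPolynomial.algHom_ext fun i => ?_
    rw [AlgHom.comp_apply, MvPolynomial.aeval_X, MvPolynomial.aeval_X]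
    exact map_uu (MvPolynomial.aeval x : MvPolynomial (Fin k) ℚ →ₐ[ℚ] ℂ).toRingHom (Y i)
  have h3 : MvPolynomial.aeval (fun i => uu (MvPolynomial.aeval x (Y i))) g = (0 : ℂ) := by
    rw [← h2, h, map_zero]
  have h4 : (fun i => uu (MvPolynomial.aeval x (Y i))) = fun i => algebraMap ℚ ℂ (t i) :=
    funext (ht x hx)
  rw [h4] at h3
  have h5 : MvPolynomial.aeval (fun i => algebraMap ℚ ℂ (t i)) g
      = algebraMap ℚ ℂ (MvPolynomial.eval t g) :=
    MvPolynomial.aeval_algebraMap_apply ℂ t g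
  rw [h5] at h3
  exact (algebraMap ℚ ℂ).injective (by rw [h3, map_zero])

lemma eq_zero_of_uu {k : ℕ} (g : MvPolynomial (Fin k) ℚ)
    (h : MvPolynomial.aeval (fun i => uu (MvPolynomial.X i : MvPolynomial (Fin k) ℚ)) g = 0) :
    g = 0 := by
  refine MvPolynomial.funext fun t => ?_
  rw [map_zero]
  refine eval_eq_zero_of_uu g _ h t fun x hx i => ?_
  rw [MvPolynomial.aeval_X]
  exact hx i

end inj

/-- the variables -/
noncomputable abbrev vX (k : ℕ) : Fin k → MvPolynomial (Fin k) ℚ := fun i => MvPolynomial.X i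

lemma aeval_psi {k : ℕ} {R : Type} [CommRing R] [Algebra ℚ R] (X : Fin k → R) :
    MvPolynomial.aeval X (psi (vX k)) = psi X := by
  have := map_psi (MvPolynomial.aeval X : MvPolynomial (Fin k) ℚ →ₐ[ℚ] R).toRingHom (vX k)
  refine Eq.trans this ?_
  congr 1
  funext i
  exact MvPolynomial.aeval_X X i

lemma aeval_db {k : ℕ} {R : Type} [CommRing R] [Algebra ℚ R] (X : Fin k → R) :
    MvPolynomial.aeval X (db (vX k)) = db X := by
  have := map_db (MvPolynomial.aeval X : MvPolynomial (Fin k) ℚ →ₐ[ℚ] R).toRingHom (vX k)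
  refine Eq.trans this ?_
  congr 1
  funext i
  exact MvPolynomial.aeval_X X i

lemma aeval_aeval_uu {k : ℕ} {R : Type} [CommRing R] [Algebra ℚ R] (X : Fin k → R)
    (β : MvPolynomial (Fin k) ℚ) :
    MvPolynomial.aeval X (MvPolynomial.aeval (fun i => uu (vX k i)) β)
      = MvPolynomial.aeval (fun i => uu (X i)) β := by
  rw [← AlgHom.comp_apply]
  congr 1
  refine MvPolynomial.algHom_ext fun i => ?_
  rw [AlgHom.comp_apply, MvPolynomial.aeval_X, MvPolynomial.aeval_X]
  refine Eq.trans (map_uu (MvPolynomial.aeval X : MvPolynomial (Fin k) ℚ →ₐ[ℚ] R).toRingHom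
    (vX k i)) ?_
  congr 1
  exact MvPolynomial.aeval_X X i

lemma uu_X_ne_zero {k : ℕ} (i : Fin k) : uu (vX k i) ≠ 0 := by
  intro h
  have h2 := map_uu (MvPolynomial.eval (fun _ : Fin k => (2 : ℚ))) (vX k i)
  rw [h, map_zero] at h2
  have h3 : MvPolynomial.eval (fun _ : Fin k => (2 : ℚ)) (vX k i) = 2 := MvPolynomial.eval_X _
  rw [h3] at h2
  norm_num [uu] at h2

lemma psi_ne_zero (h6 : S_P6) (k : ℕ) : psi (vX k) ≠ 0 := by
  induction k with
  | zero =>
    intro h
    have h1 : psi (vX 0) = 1 := by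
      simp [psi, br, aa, ff, cc, sg, pairs]
    rw [h1] at h
    exact one_ne_zero h
  | succ k ih =>
    intro h
    have h1 := h6 (MvPolynomial (Fin k) ℚ) k (vX k)
    rw [← aeval_psi, h, map_zero] at h1
    have h2 : (∏ i, uu (vX k i)) * psi (vX k) = 0 := neg_eq_zero.1 h1.symm
    rcases mul_eq_zero.1 h2 with h3 | h3
    · exact Finset.prod_ne_zero_iff.2 (fun i _ => uu_X_ne_zero i) h3
    · exact ih h3

lemma sg_single {k : ℕ} (j : Fin k) : sg (fun i => decide (i = j)) = -1 := by
  unfold sg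
  rw [Finset.prod_eq_single j]
  · simp
  · intro b _ hb
    simp [hb]
  · intro h
    exact absurd (Finset.mem_univ j) h

lemma exists_beta (h1 : S_PERM) (h2 : S_FLIP) (h3 : S_DIV) (h4 : S_DEG) (h6 : S_P6) (k : ℕ) :
    ∃ β : MvPolynomial (Fin k) ℚ, β.IsSymmetric ∧ β ≠ 0 ∧ (∀ i, 2 * β.degreeOf i + 1 ≤ k) ∧
      ∀ (R : Type) [CommRing R] [Algebra ℚ R] (X : Fin k → R),
        psi X = db X * MvPolynomial.aeval (fun i => uu (X i)) β := by
  have hperm : ∀ σ : Equiv.Perm (Fin k), MvPolynomial.rename σ (psi (vX k)) =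
      (Equiv.Perm.sign σ : ℤ) • psi (vX k) := by
    intro σ
    have e1 := map_psi (MvPolynomial.rename σ : MvPolynomial (Fin k) ℚ →ₐ[ℚ] _).toRingHom (vX k)
    refine Eq.trans e1 ?_
    have e2 := (h1 (MvPolynomial (Fin k) ℚ) k (vX k) σ).2.1 (st k)
    refine Eq.trans ?_ e2
    have e3 : (fun i => (MvPolynomial.rename σ : MvPolynomial (Fin k) ℚ →ₐ[ℚ]
        MvPolynomial (Fin k) ℚ).toRingHom (vX k i)) = vX k ∘ σ := by
      funext i
      exact MvPolynomial.rename_X _ _
    rw [e3]
    rfl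
  have hflip : ∀ j : Fin k, MvPolynomial.aeval (fun i => if i = j then 1 - MvPolynomial.X i else
      (MvPolynomial.X i : MvPolynomial (Fin k) ℚ)) (psi (vX k)) = -psi (vX k) := by
    intro j
    rw [aeval_psi]
    have e2 := (h2 (MvPolynomial (Fin k) ℚ) k (vX k) (fun i => decide (i = j))).1 (st k)
    rw [sg_single, neg_one_zsmul] at e2
    refine Eq.trans ?_ e2
    have e3 : (fun i => if i = j then 1 - MvPolynomial.X i else
      (MvPolynomial.X i : MvPolynomial (Fin k) ℚ)) = flp (fun i => decide (i = j)) (vX k) := by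
      funext i
      unfold flp
      by_cases hij : i = j <;> simp [hij]
    rw [e3]
    rfl
  obtain ⟨β, hs, hf, hd⟩ := h3 k (psi (vX k)) hperm hflip
  have hne := psi_ne_zero h6 k
  refine ⟨β, hs, ?_, ?_, ?_⟩
  · rintro rfl
    rw [map_zero, mul_zero] at hf
    exact hne hf
  · intro i
    have e1 := hd hne i
    have e2 := h4 k i
    have e3 : (psi (vX k)).degreeOf i + 2 ≤ 3 * k := e2
    omega
  · intro R _ _ X
    have e1 := congrArg (MvPolynomial.aeval X) hf
    rw [map_mul, aeval_psi] at e1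
    rw [e1]
    congr 1
    · exact aeval_db X
    · exact aeval_aeval_uu X β

/-- the values avoid each other and their bars -/
def Gd (a b : ℚ) : Prop := a ≠ b ∧ a + b ≠ 1

lemma Gd.symm {a b : ℚ} (h : Gd a b) : Gd b a :=
  ⟨fun e => h.1 e.symm, fun e => h.2 (by rw [add_comm]; exact e)⟩

lemma db_ne_zero {k : ℕ} (z : Fin k → ℚ) (hz : ∀ r, 1 - 2 * z r ≠ 0)
    (hg : ∀ p q, p ≠ q → Gd (z p) (z q)) : db z ≠ 0 := by
  unfold db
  refine mul_ne_zero (Finset.prod_ne_zero_iff.2 fun r _ => hz r)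
    (Finset.prod_ne_zero_iff.2 fun p hp => ?_)
  have hlt : p.1 < p.2 := (Finset.mem_filter.1 hp).2
  have hG := hg p.1 p.2 (ne_of_lt hlt)
  refine mul_ne_zero (sub_ne_zero.2 hG.1) ?_
  intro h
  exact hG.2 (by linarith)

lemma wheel_generic (h5 : S_WHEEL) {k : ℕ} (β : MvPolynomial (Fin k) ℚ)
    (hβ : ∀ (R : Type) [CommRing R] [Algebra ℚ R] (X : Fin k → R),
        psi X = db X * MvPolynomial.aeval (fun i => uu (X i)) β)
    (t : Fin k → ℚ) (y : ℚ) (i j l : Fin k) (hij : i ≠ j) (hil : i ≠ l) (hjl : j ≠ l)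
    (hy0 : y ≠ 0) (hy1 : y ≠ 1) (hym : y ≠ -1) (hy2 : y ≠ 2) (hyh : y ≠ 1 / 2)
    (hti : t i = uu y) (htj : t j = uu y⁻¹) (htl : t l = uu (y / (y - 1))) :
    MvPolynomial.eval t β = 0 := by
  have hy1' : y - 1 ≠ 0 := sub_ne_zero.2 hy1
  set w : ℚ := y / (y - 1) with hw
  set Y : Fin k → MvPolynomial (Fin k) ℚ := fun r => if r = i then MvPolynomial.C y else
    if r = j then MvPolynomial.C y⁻¹ else if r = l then MvPolynomial.C w else
      MvPolynomial.X r with hYdef
  have hYi : Y i = MvPolynomial.C y := by simp [hYdef]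
  have hYj : Y j = MvPolynomial.C y⁻¹ := by simp [hYdef, hij.symm]
  have hYl : Y l = MvPolynomial.C w := by simp [hYdef, hil.symm, hjl.symm]
  have hYr : ∀ r, r ≠ i → r ≠ j → r ≠ l → Y r = MvPolynomial.X r := by
    intro r h1 h2 h3
    simp [hYdef, h1, h2, h3]
  -- psi Y = 0
  have hpsi : psi Y = 0 := by
    have hinj := IsFractionRing.injective (MvPolynomial (Fin k) ℚ)
      (FractionRing (MvPolynomial (Fin k) ℚ))
    apply hinj
    rw [map_zero]
    refine (map_psi (algebraMap (MvPolynomial (Fin k) ℚ)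
      (FractionRing (MvPolynomial (Fin k) ℚ))) Y).trans ?_
    refine h5 _ k _ i j l hij hil hjl ?_ ?_
    · rw [← map_mul, hYi, hYj, ← MvPolynomial.C_mul, mul_inv_cancel₀ hy0, MvPolynomial.C_1, map_one]
    · rw [hYi, hYl, ← map_one (algebraMap (MvPolynomial (Fin k) ℚ)
        (FractionRing (MvPolynomial (Fin k) ℚ))), ← map_sub, ← map_mul]
      congr 1
      rw [← MvPolynomial.C_1, ← MvPolynomial.C_sub, ← MvPolynomial.C_mul, hw,
        div_mul_cancel₀ _ hy1']
  -- db Y ≠ 0
  have hdb : db Y ≠ 0 := by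
    intro h0
    set M : ℚ := |y| + |y⁻¹| + |w| + 2 with hM
    set Z : Fin k → ℚ := fun r => M + (r : ℕ) with hZ
    have h1 := map_db (MvPolynomial.eval Z) Y
    rw [h0, map_zero] at h1
    have key : ∀ r, (r = i ∧ MvPolynomial.eval Z (Y r) = y) ∨
        (r = j ∧ MvPolynomial.eval Z (Y r) = y⁻¹) ∨
        (r = l ∧ MvPolynomial.eval Z (Y r) = w) ∨ MvPolynomial.eval Z (Y r) = M + (r : ℕ) := by
      intro r
      by_cases e1 : r = i
      · left; exact ⟨e1, by rw [e1, hYi, MvPolynomial.eval_C]⟩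
      by_cases e2 : r = j
      · right; left; exact ⟨e2, by rw [e2, hYj, MvPolynomial.eval_C]⟩
      by_cases e3 : r = l
      · right; right; left; exact ⟨e3, by rw [e3, hYl, MvPolynomial.eval_C]⟩
      · right; right; right; rw [hYr r e1 e2 e3, MvPolynomial.eval_X]
    have n1 := abs_nonneg y
    have n2 := abs_nonneg y⁻¹
    have n3 := abs_nonneg w
    have hyinv : y * y⁻¹ = 1 := mul_inv_cancel₀ hy0
    have hwy : w * (y - 1) = y := div_mul_cancel₀ _ hy1'
    have hsq : y ^ 2 - y + 1 ≠ 0 := by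
      have : 0 < y ^ 2 - y + 1 := by nlinarith [sq_nonneg (2 * y - 1)]
      exact this.ne'
    have g1 : Gd y y⁻¹ := by
      constructor
      · intro h
        have h2 : (y - 1) * (y + 1) = 0 := by
          have : y * y = 1 := by nth_rewrite 2 [h]; exact hyinv
          linear_combination this
        rcases mul_eq_zero.1 h2 with h3 | h3
        · exact hy1' h3
        · exact hym (by linarith)
      · intro h
        apply hsq
        linear_combination y * h - hyinv
    have g2 : Gd y w := by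
      constructor
      · intro h
        have h2 : y * (y - 2) = 0 := by
          rw [← h] at hwy
          linear_combination hwy
        rcases mul_eq_zero.1 h2 with h3 | h3
        · exact hy0 h3
        · exact hy2 (by linarith)
      · intro h
        apply hsq
        linear_combination (y - 1) * h - hwy
    have g3 : Gd y⁻¹ w := by
      constructor
      · intro h
        apply hsq
        rw [← h] at hwy
        linear_combination -y * hwy + (y - 1) * hyinv
      · intro h
        have h2 : 2 * y = 1 := by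
          linear_combination (y * (y - 1)) * h - (y - 1) * hyinv - y * hwy
        exact hyh (by linarith)
    have g4 : ∀ (a : ℚ) (n : ℕ), |a| + 2 ≤ M → Gd a (M + n) := by
      intro a n ha
      have b1 := le_abs_self a
      have b2 := neg_abs_le a
      have b3 : (0 : ℚ) ≤ n := Nat.cast_nonneg n
      constructor
      · intro h
        linarith
      · intro h
        linarith
    have m1 : |y| + 2 ≤ M := by rw [hM]; linarith
    have m2 : |y⁻¹| + 2 ≤ M := by rw [hM]; linarith
    have m3 : |w| + 2 ≤ M := by rw [hM]; linarith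
    refine db_ne_zero (fun r => MvPolynomial.eval Z (Y r)) ?_ ?_ h1.symm
    · intro r
      show 1 - 2 * MvPolynomial.eval Z (Y r) ≠ 0
      rcases key r with ⟨_, h⟩ | ⟨_, h⟩ | ⟨_, h⟩ | h <;> rw [h]
      · intro h
        exact hyh (by linarith)
      · intro h
        apply hy2
        linear_combination y * h + 2 * hyinv
      · intro h
        apply hym
        linear_combination -(y - 1) * h - 2 * hwy
      · intro h
        have b3 : (0 : ℚ) ≤ (r : ℕ) := Nat.cast_nonneg _
        linarith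
    · intro p q hpq
      show Gd (MvPolynomial.eval Z (Y p)) (MvPolynomial.eval Z (Y q))
      rcases key p with ⟨hp, h⟩ | ⟨hp, h⟩ | ⟨hp, h⟩ | h <;>
        rcases key q with ⟨hq, h'⟩ | ⟨hq, h'⟩ | ⟨hq, h'⟩ | h' <;> rw [h, h']
      · exact absurd (hp.trans hq.symm) hpq
      · exact g1
      · exact g2
      · exact g4 _ _ m1
      · exact g1.symm
      · exact absurd (hp.trans hq.symm) hpq
      · exact g3
      · exact g4 _ _ m2
      · exact g2.symm
      · exact g3.symm
      · exact absurd (hp.trans hq.symm) hpq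
      · exact g4 _ _ m3
      · exact (g4 _ _ m1).symm
      · exact (g4 _ _ m2).symm
      · exact (g4 _ _ m3).symm
      · have b3 : (0 : ℚ) ≤ (p : ℕ) := Nat.cast_nonneg _
        have b4 : (0 : ℚ) ≤ (q : ℕ) := Nat.cast_nonneg _
        constructor
        · intro e
          apply hpq
          have : ((p : ℕ) : ℚ) = (q : ℕ) := by linarith
          exact Fin.ext (by exact_mod_cast this)
        · intro e
          linarith
  have h7 := hβ (MvPolynomial (Fin k) ℚ) Y
  rw [hpsi] at h7
  have h8 := (mul_eq_zero.1 h7.symm).resolve_left hdb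
  refine eval_eq_zero_of_uu β Y h8 t fun x hx r => ?_
  by_cases e1 : r = i
  · rw [e1, hYi, MvPolynomial.aeval_C, ← map_uu, hti]
  by_cases e2 : r = j
  · rw [e2, hYj, MvPolynomial.aeval_C, ← map_uu, htj]
  by_cases e3 : r = l
  · rw [e3, hYl, MvPolynomial.aeval_C, ← map_uu, htl]
  · rw [hYr r e1 e2 e3, MvPolynomial.aeval_X]
    exact hx r

lemma eventually_ne_punctured (y0 a : ℚ) : ∀ᶠ y in nhdsWithin y0 {y0}ᶜ, y ≠ a := by
  by_cases h : y0 = a
  · rw [← h]
    exact self_mem_nhdsWithin
  · exact Filter.Eventually.filter_mono nhdsWithin_le_nhds (eventually_ne_nhds h)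

lemma wheel_all (h5 : S_WHEEL) {k : ℕ} (β : MvPolynomial (Fin k) ℚ)
    (hβ : ∀ (R : Type) [CommRing R] [Algebra ℚ R] (X : Fin k → R),
        psi X = db X * MvPolynomial.aeval (fun i => uu (X i)) β)
    (t : Fin k → ℚ) (y0 : ℚ) (i j l : Fin k) (hij : i ≠ j) (hil : i ≠ l) (hjl : j ≠ l)
    (hy0 : y0 ≠ 0) (hy1 : y0 ≠ 1)
    (hti : t i = uu y0) (htj : t j = uu y0⁻¹) (htl : t l = uu (y0 / (y0 - 1))) :
    MvPolynomial.eval t β = 0 := by
  set τ : ℚ → Fin k → ℚ := fun y r => if r = i then uu y else if r = j then uu y⁻¹ else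
    if r = l then uu (y / (y - 1)) else t r with hτ
  have hτ0 : τ y0 = t := by
    funext r
    simp only [hτ]
    split_ifs with e1 e2 e3
    · rw [e1, hti]
    · rw [e2, htj]
    · rw [e3, htl]
    · rfl
  have hcuu : Continuous (fun x : ℚ => uu x) := by
    unfold uu
    fun_prop
  have hcont : ContinuousAt τ y0 := by
    rw [continuousAt_pi]
    intro r
    simp only [hτ]
    by_cases e1 : r = i
    · simp only [e1, if_true]
      exact hcuu.continuousAt
    by_cases e2 : r = j
    · simp only [e2, hij.symm, if_true, if_false]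
      exact hcuu.continuousAt.comp (continuousAt_inv₀ hy0)
    by_cases e3 : r = l
    · simp only [e3, hil.symm, hjl.symm, if_true, if_false]
      have h1 : ContinuousAt (fun y : ℚ => y / (y - 1)) y0 :=
        continuousAt_id.div (continuousAt_id.sub continuousAt_const) (sub_ne_zero.2 hy1)
      exact ContinuousAt.comp (f := fun y : ℚ => y / (y - 1)) (g := fun x : ℚ => uu x)
        hcuu.continuousAt h1
    · simp only [e1, e2, e3, if_false]
      exact continuousAt_const
  have hc2 : ContinuousAt (fun y => MvPolynomial.eval (τ y) β) y0 :=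
    ContinuousAt.comp (f := τ) (g := fun x => MvPolynomial.eval x β)
      (MvPolynomial.continuous_eval β).continuousAt hcont
  have hlim : Filter.Tendsto (fun y => MvPolynomial.eval (τ y) β) (nhdsWithin y0 {y0}ᶜ)
      (nhds (MvPolynomial.eval (τ y0) β)) := hc2.tendsto.mono_left nhdsWithin_le_nhds
  have hev : (fun _ => (0 : ℚ)) =ᶠ[nhdsWithin y0 {y0}ᶜ] fun y => MvPolynomial.eval (τ y) β := by
    filter_upwards [eventually_ne_punctured y0 0, eventually_ne_punctured y0 1,
      eventually_ne_punctured y0 (-1), eventually_ne_punctured y0 2,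
      eventually_ne_punctured y0 (1 / 2)] with y a1 a2 a3 a4 a5
    refine (wheel_generic h5 β hβ (τ y) y i j l hij hil hjl a1 a2 a3 a4 a5 ?_ ?_ ?_).symm
    · simp [hτ]
    · simp [hτ, hij.symm]
    · simp [hτ, hil.symm, hjl.symm]
  have hlim0 : Filter.Tendsto (fun y => MvPolynomial.eval (τ y) β) (nhdsWithin y0 {y0}ᶜ)
      (nhds 0) := Filter.Tendsto.congr' hev tendsto_const_nhds
  have := tendsto_nhds_unique hlim hlim0
  rw [hτ0] at this
  exact this

lemma coeff_aeval_snoc {n : ℕ} (g : MvPolynomial (Fin (n + 1)) ℚ) (μ : Fin n →₀ ℕ) :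
    MvPolynomial.coeff μ (MvPolynomial.aeval
      (Fin.snoc (α := fun _ => MvPolynomial (Fin n) ℚ) (vX n) 0 :
        Fin (n + 1) → MvPolynomial (Fin n) ℚ) g)
      = MvPolynomial.coeff (μ.mapDomain Fin.castSucc) g := by
  classical
  have hlast : (μ.mapDomain Fin.castSucc) (Fin.last n) = 0 := by
    refine Finsupp.mapDomain_of_notMem_range _ _ ?_
    rintro ⟨a, ha⟩
    exact absurd ha (Fin.castSucc_lt_last a).ne
  have hcs : ∀ a : Fin n, (μ.mapDomain Fin.castSucc) a.castSucc = μ a := fun a =>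
    Finsupp.mapDomain_apply (Fin.castSucc_injective n) μ a
  rw [MvPolynomial.aeval_def, MvPolynomial.eval₂_eq', MvPolynomial.coeff_sum]
  have key : ∀ d ∈ g.support, MvPolynomial.coeff μ
      (algebraMap ℚ (MvPolynomial (Fin n) ℚ) (MvPolynomial.coeff d g) *
        ∏ i, (Fin.snoc (α := fun _ => MvPolynomial (Fin n) ℚ) (vX n) 0 :
        Fin (n + 1) → MvPolynomial (Fin n) ℚ) i ^ d i)
      = if d = μ.mapDomain Fin.castSucc then MvPolynomial.coeff d g else 0 := by
    intro d _
    rw [Fin.prod_univ_castSucc]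
    simp only [Fin.snoc_castSucc, Fin.snoc_last]
    by_cases hd : d (Fin.last n) = 0
    · rw [hd, pow_zero, mul_one]
      set d' : Fin n →₀ ℕ := Finsupp.equivFunOnFinite.symm (fun a => d a.castSucc) with hd'
      have e1 : algebraMap ℚ (MvPolynomial (Fin n) ℚ) (MvPolynomial.coeff d g) *
          ∏ a : Fin n, vX n a ^ d a.castSucc
          = MvPolynomial.monomial d' (MvPolynomial.coeff d g) := by
        rw [MvPolynomial.monomial_eq, Finsupp.prod_fintype _ _ (fun i => pow_zero _)]
        rfl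
      rw [e1, MvPolynomial.coeff_monomial]
      have e2 : (d' = μ) ↔ (d = μ.mapDomain Fin.castSucc) := by
        constructor
        · intro h
          ext a
          refine Fin.lastCases ?_ (fun b => ?_) a
          · rw [hd, hlast]
          · rw [hcs, ← h]
            rfl
        · intro h
          ext a
          rw [← hcs a, ← h]
          rfl
      simp only [e2]
    · rw [zero_pow hd, mul_zero, mul_zero, MvPolynomial.coeff_zero, if_neg]
      intro h
      rw [h] at hd
      exact hd hlast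
  rw [Finset.sum_congr rfl key, Finset.sum_ite_eq' ]
  split_ifs with h
  · rfl
  · exact (MvPolynomial.notMem_support_iff.1 h).symm

lemma restrict_beta (h6 : S_P6) {n : ℕ} (β : MvPolynomial (Fin (n + 1)) ℚ)
    (hβ : ∀ (R : Type) [CommRing R] [Algebra ℚ R] (X : Fin (n + 1) → R),
        psi X = db X * MvPolynomial.aeval (fun i => uu (X i)) β)
    (β' : MvPolynomial (Fin n) ℚ)
    (hβ' : ∀ (R : Type) [CommRing R] [Algebra ℚ R] (X : Fin n → R),
        psi X = db X * MvPolynomial.aeval (fun i => uu (X i)) β') :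
    MvPolynomial.aeval
      (Fin.snoc (α := fun _ => MvPolynomial (Fin n) ℚ) (vX n) 0 :
        Fin (n + 1) → MvPolynomial (Fin n) ℚ) β = -β' := by
  set γ := MvPolynomial.aeval
      (Fin.snoc (α := fun _ => MvPolynomial (Fin n) ℚ) (vX n) 0 :
        Fin (n + 1) → MvPolynomial (Fin n) ℚ) β with hγ
  have e1 := h6 (MvPolynomial (Fin n) ℚ) n (vX n)
  rw [hβ, hβ' _ (vX n), db_snoc_zero] at e1
  have e2 : MvPolynomial.aeval (fun i => uu ((Fin.snoc (α := fun _ => MvPolynomial (Fin n) ℚ)
      (vX n) 0 : Fin (n + 1) → MvPolynomial (Fin n) ℚ) i)) β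
      = MvPolynomial.aeval (fun i => uu (vX n i)) γ := by
    rw [hγ, ← AlgHom.comp_apply]
    congr 1
    refine MvPolynomial.algHom_ext fun i => ?_
    rw [AlgHom.comp_apply, MvPolynomial.aeval_X, MvPolynomial.aeval_X]
    refine Fin.lastCases ?_ (fun b => ?_) i
    · rw [Fin.snoc_last, map_zero]
      simp [uu]
    · rw [Fin.snoc_castSucc, MvPolynomial.aeval_X]
  rw [e2] at e1
  have hdb : db (vX n) ≠ 0 := by
    intro h
    have := hβ' _ (vX n)
    rw [h, zero_mul] at this
    exact psi_ne_zero h6 n this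
  have hpr : ∏ i, uu (vX n i) ≠ 0 := Finset.prod_ne_zero_iff.2 fun i _ => uu_X_ne_zero i
  have e3 : (db (vX n) * ∏ i, uu (vX n i)) * MvPolynomial.aeval (fun i => uu (vX n i)) (γ + β')
      = 0 := by
    rw [map_add, mul_add, e1]
    ring
  have e4 := (mul_eq_zero.1 e3).resolve_left (mul_ne_zero hdb hpr)
  exact eq_neg_of_add_eq_zero_left (eq_zero_of_uu _ e4)

lemma top_beta (h6 : S_P6) {n : ℕ} (β : MvPolynomial (Fin (n + 1)) ℚ) (hs : β.IsSymmetric)
    (hβ : ∀ (R : Type) [CommRing R] [Algebra ℚ R] (X : Fin (n + 1) → R),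
        psi X = db X * MvPolynomial.aeval (fun i => uu (X i)) β)
    (β' : MvPolynomial (Fin n) ℚ) (hd : ∀ i, 2 * β'.degreeOf i + 1 ≤ n)
    (hβ' : ∀ (R : Type) [CommRing R] [Algebra ℚ R] (X : Fin n → R),
        psi X = db X * MvPolynomial.aeval (fun i => uu (X i)) β')
    (m : Fin (n + 1) →₀ ℕ) (hm : m ∈ β.support) (i i' : Fin (n + 1)) (hii : i ≠ i')
    (hk : 2 * m i + 1 = n + 1) : 1 ≤ m i' := by
  by_contra hcon
  have hm0 : m i' = 0 := by omega
  set σ : Equiv.Perm (Fin (n + 1)) := Equiv.swap i' (Fin.last n) with hσ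
  have hσi' : σ i' = Fin.last n := Equiv.swap_apply_left _ _
  have hσi : σ i ≠ Fin.last n := fun h => hii (σ.injective (h.trans hσi'.symm))
  obtain ⟨a, ha⟩ : ∃ a : Fin n, a.castSucc = σ i := ⟨(σ i).castPred hσi, Fin.castSucc_castPred _ _⟩
  set m' := m.mapDomain σ with hm'
  have c1 : MvPolynomial.coeff m' β ≠ 0 := by
    have := MvPolynomial.coeff_rename_mapDomain σ σ.injective β m
    rw [hs σ] at this
    rw [hm', this]
    exact MvPolynomial.mem_support_iff.1 hm
  have c2 : m' (Fin.last n) = 0 := by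
    rw [hm', ← hσi', Finsupp.mapDomain_apply σ.injective, hm0]
  have c3 : m' a.castSucc = m i := by
    rw [hm', ha, Finsupp.mapDomain_apply σ.injective]
  set μ : Fin n →₀ ℕ := Finsupp.equivFunOnFinite.symm (fun b => m' b.castSucc) with hμ
  have c4 : μ.mapDomain Fin.castSucc = m' := by
    ext b
    refine Fin.lastCases ?_ (fun c => ?_) b
    · rw [c2]
      refine Finsupp.mapDomain_of_notMem_range _ _ ?_
      rintro ⟨a, ha⟩
      exact absurd ha (Fin.castSucc_lt_last a).ne
    · rw [Finsupp.mapDomain_apply (Fin.castSucc_injective n)]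
      rfl
  have c5 := coeff_aeval_snoc β μ
  rw [restrict_beta h6 β hβ β' hβ', c4, MvPolynomial.coeff_neg] at c5
  have c6 : μ ∈ β'.support := by
    rw [MvPolynomial.mem_support_iff]
    intro h
    rw [h, neg_zero] at c5
    exact c1 c5.symm
  have c7 := MvPolynomial.monomial_le_degreeOf a c6
  have c8 : μ a = m i := c3
  have c9 := hd a
  omega

theorem beta (h1 : S_PERM) (h2 : S_FLIP) (h3 : S_DIV) (h4 : S_DEG) (h5 : S_WHEEL) (h6 : S_P6) :
    Pool.Agent.H174.GM.S_BETA := by
  intro k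
  obtain ⟨β, hs, hne, hd, hβ⟩ := exists_beta h1 h2 h3 h4 h6 k
  refine ⟨β, ⟨hs, hd, ?_, ?_⟩, hne, hβ⟩
  · intro m hm i i' hii hk
    obtain ⟨n, rfl⟩ : ∃ n, k = n + 1 := ⟨k - 1, by have := i.pos; omega⟩
    obtain ⟨β', _, _, hd', hβ'⟩ := exists_beta h1 h2 h3 h4 h6 n
    exact top_beta h6 β hs hβ β' hd' hβ' m hm i i' hii hk
  · intro t y i j l hij hil hjl hy0 hy1 hti htj htl
    exact wheel_all h5 β hβ t y i j l hij hil hjl hy0 hy1 hti htj htl

end Pool.Agent.H791.GM174
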