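import Pool.Agent.H174.GM.Stmts

set_option autoImplicit false

namespace Pool.Agent.H791.GM174

open Finset Pool.Agent.H174.GM

theorem loc (h1 : S_BETA) (h2 : S_FAC) : Pool.Agent.H174.GM.S_LOC := by
  intro k j q hjq
  obtain ⟨n, rfl⟩ : ∃ n, k = n + 2 := by
    refine ⟨k - 2, ?_⟩
    have a1 := j.isLt
    have a2 := q.isLt
    have a3 : j.1 ≠ q.1 := fun h => hjq (Fin.ext h)
    omega
  obtain ⟨β, hC, _, hβ⟩ := h1 (n + 2)
  obtain ⟨f', _, hf'⟩ := h2 n β hC
  obtain ⟨e, he0, he1⟩ : ∃ e : Equiv.Perm (Fin (n + 2)), e 0 = j ∧ e 1 = q := by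
    set q' := Equiv.swap 0 j q with hq'
    have hq0 : q' ≠ 0 := by
      intro h
      apply hjq
      have h3 : Equiv.swap 0 j q' = q := by rw [hq', Equiv.swap_apply_self]
      rw [h, Equiv.swap_apply_left] at h3
      exact h3
    refine ⟨Equiv.swap 0 j * Equiv.swap 1 q', ?_, ?_⟩
    · rw [Equiv.Perm.mul_apply, Equiv.swap_apply_of_ne_of_ne (by simp) hq0.symm,
        Equiv.swap_apply_left]
    · rw [Equiv.Perm.mul_apply, Equiv.swap_apply_left, hq', Equiv.swap_apply_self]
  set g : Fin n → Fin (n + 2) := fun r => e r.succ.succ with hg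
  have hginj : Function.Injective g := fun a b h =>
    Fin.succ_injective _ (Fin.succ_injective _ (e.injective h))
  have hgj : ∀ r, g r ≠ j := by
    intro r h
    rw [← he0] at h
    exact absurd (e.injective h) (Fin.succ_ne_zero _)
  have hgq : ∀ r, g r ≠ q := by
    intro r h
    rw [← he1] at h
    have h3 := e.injective h
    have h4 : (r.succ.succ : Fin (n + 2)).val = (1 : Fin (n + 2)).val := by rw [h3]
    simp at h4
  have hdeg : ∀ i : Fin (n + 2), (∀ r, g r ≠ i) → (MvPolynomial.rename g f').degreeOf i = 0 := by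
    intro i hi
    classical
    by_contra hne
    have h3 : i ∈ (MvPolynomial.rename g f').vars :=
      MvPolynomial.mem_vars_iff_degreeOf_ne_zero.2 hne
    have h4 := MvPolynomial.vars_rename g f' h3
    obtain ⟨r, _, hr⟩ := Finset.mem_image.1 h4
    exact hi r hr
  refine ⟨MvPolynomial.rename g f', hdeg j hgj, hdeg q hgq, ?_⟩
  intro K _ _ X hX
  have hy : X q ≠ 0 := right_ne_zero_of_mul_eq_one hX
  have hXj : X j = (X q)⁻¹ := eq_inv_of_mul_eq_one_left hX
  rw [hβ K X]
  have e1 : MvPolynomial.aeval (fun i => uu (X i)) β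
      = MvPolynomial.aeval (fun i => uu (X (e i))) β := by
    have h3 := hC.sym e
    have h4 : MvPolynomial.aeval (fun i => uu (X i)) (MvPolynomial.rename e β)
        = MvPolynomial.aeval ((fun i => uu (X i)) ∘ e) β := MvPolynomial.aeval_rename _ _ _
    rw [h3] at h4
    exact h4
  have e2 : (fun i => uu (X (e i))) = Fin.cons (α := fun _ => K) (uu (X q)⁻¹)
        (Fin.cons (α := fun _ => K) (uu (X q)) (fun r => uu (X (g r)))) := by
    funext i
    refine Fin.cases ?_ (fun i => Fin.cases ?_ (fun i => ?_) i) i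
    · rw [Fin.cons_zero, he0, hXj]
    · rw [Fin.cons_succ, Fin.cons_zero]
      have : (Fin.succ 0 : Fin (n + 2)) = 1 := rfl
      rw [this, he1]
    · rw [Fin.cons_succ, Fin.cons_succ]
  have e3 : ∏ r ∈ univ.filter (fun r => r ≠ j ∧ r ≠ q), (1 - uu (X j) * uu (X q) * uu (X r))
      = ∏ r, (1 - uu (X q)⁻¹ * uu (X q) * uu (X (g r))) := by
    rw [hXj]
    symm
    refine Finset.prod_bij (fun r _ => g r) ?_ ?_ ?_ ?_
    · intro r _
      exact Finset.mem_filter.2 ⟨Finset.mem_univ _, hgj r, hgq r⟩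
    · intro a _ b _ h
      exact hginj h
    · intro b hb
      obtain ⟨_, hbj, hbq⟩ := Finset.mem_filter.1 hb
      obtain ⟨c, hc⟩ := e.surjective b
      have hc0 : c ≠ 0 := by
        rintro rfl
        exact hbj (hc.symm.trans he0)
      obtain ⟨d, rfl⟩ := Fin.exists_succ_eq.2 hc0
      have hd0 : d ≠ 0 := by
        rintro rfl
        exact hbq (hc.symm.trans he1)
      obtain ⟨r, rfl⟩ := Fin.exists_succ_eq.2 hd0
      exact ⟨r, Finset.mem_univ _, hc⟩
    · intro a _
      rfl
  have e4 : MvPolynomial.aeval (fun i => uu (X i)) (MvPolynomial.rename g f')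
      = MvPolynomial.aeval (fun r => uu (X (g r))) f' := MvPolynomial.aeval_rename _ _ _
  rw [e1, e2, hf' K (fun r => uu (X (g r))) (X q) hy, e3, e4, mul_assoc]

end Pool.Agent.H791.GM174
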